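import Pool.Agent.MWHP.StmtsP

/-!
# Row CPH of squad MWHP: `CapP` from `Cm2`
-/

set_option autoImplicit false

namespace Pool.Agent.MWHP.H13

open Pool.Agent.Helper14_MV Pool.Agent.Helper2_MV Pool.Agent.MVO Pool.Agent.MWL Pool.Agent.MWS
open Pool.Agent.MWA Pool.Agent.MWH
open Pool.Agent.MWHP

theorem flat_rep (k c : ℕ) : (List.replicate k c).flatMap (fun _ => [0]) = List.replicate k 0 := by
  induction k with
  | zero => rfl
  | succ k ih =>
    rw [List.replicate_succ, List.flatMap_cons, ih, List.replicate_succ]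
    rfl

/-- `0` is replaced by `w` -/
def pw (w : List ℕ) (m : ℕ) : List ℕ := (List.replicate m 0).flatMap (fun _ => w)

theorem pw_succ (w : List ℕ) (m : ℕ) : pw w (m + 1) = pw w m ++ w := by
  unfold pw
  rw [List.replicate_succ', List.flatMap_append]
  simp

theorem okc : OkB 1 (fun _ => [0, 1]) := by
  constructor
  · intro j _ c hc hs
    simp only [List.mem_cons, List.not_mem_nil, or_false] at hc
    have := hs.1
    omega
  · intro j _ c hc
    simp only [List.mem_cons, List.not_mem_nil, or_false] at hc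
    rcases hc with h | h
    · subst h
      decide
    · subst h
      decide

theorem key (β θ : FIC) (hβ : Cm2 β) (hle : β ≤ θ) (hnc : NC2 θ) (u v : List ℕ) (h : RR θ u v)
    (c : ℕ) : ¬ (min (u.count c) 2 < min (v.count c) 2) := by
  intro hlt
  -- (F), (F')
  have F0 := hle _ _ (hβ 1 (fun _ => [0, 1]) okc 0 (by omega) 1 (by omega) (by omega) [] [] 0 1
    rfl (by decide) (by simp) (by simp))
  have F1 := hle _ _ (hβ 1 (fun _ => [0, 1]) okc 1 (by omega) 0 (by omega) (by omega) [] [] 0 1
    rfl (by decide) (by simp) (by simp))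
  have F : RR θ [0, 1, 0, 1] [1, 0, 0, 1] :=
    RR.sub (β := θ) (fun c => if c = 2 then [] else [c]) F0
  have F'0 : RR θ [0, 1, 0, 1] [0, 1, 1, 0] :=
    RR.sub (β := θ) (fun c => if c = 2 then [] else [c]) F1
  have F' : RR θ [1, 0, 1, 0] [1, 0, 0, 1] :=
    RR.sub (β := θ) (fun c => if c = 0 then [1] else [0]) F'0
  have L1 : ∀ m, RR θ (pw [0, 1] (m + 1)) (pw [1, 0] m ++ [0, 1]) := by
    intro m
    induction m with
    | zero => exact RR.refl _
    | succ m ih =>
      have h1 := ih.append (RR.refl (β := θ) [0, 1])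
      have h2 := (RR.refl (β := θ) (pw [1, 0] m)).append F
      rw [pw_succ [0, 1] (m + 1), pw_succ [1, 0] m, List.append_assoc]
      rw [List.append_assoc] at h1
      exact θ.trans h1 h2
  have L2 : ∀ m, RR θ (pw [0, 1] (m + 2)) (pw [1, 0] (m + 2)) := by
    intro m
    have h1 := L1 (m + 1)
    have h2 := (RR.refl (β := θ) (pw [1, 0] m)).append F'.symm
    rw [pw_succ [1, 0] m, List.append_assoc] at h1
    rw [pw_succ [1, 0] (m + 1), pw_succ [1, 0] m, List.append_assoc]
    exact θ.trans h1 h2
  have h1 := (h.filter (fun d => d == c)).sub (fun _ => [0])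
  have e1 : ∀ w : List ℕ, w.filter (fun d => d == c) = List.replicate (w.count c) c :=
    fun w => List.filter_beq c
  rw [e1, e1, flat_rep, flat_rep] at h1
  have hA : ∃ m, RR θ [0] (List.replicate (m + 2) 0) := by
    rcases Nat.lt_or_ge (u.count c) 1 with h0 | h0
    · have hu : u.count c = 0 := by omega
      rw [hu] at h1
      have h2 := h1.append (RR.refl (β := θ) [0])
      have e : List.replicate (v.count c) 0 ++ [0] = List.replicate (v.count c + 1) 0 := by
        rw [List.replicate_succ']
      rw [e] at h2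
      refine ⟨v.count c - 1, ?_⟩
      have e2 : v.count c - 1 + 2 = v.count c + 1 := by omega
      rw [e2]
      exact h2
    · have hu : u.count c = 1 := by omega
      rw [hu] at h1
      refine ⟨v.count c - 2, ?_⟩
      have e2 : v.count c - 2 + 2 = v.count c := by omega
      rw [e2]
      exact h1
  obtain ⟨m, hm⟩ := hA
  have hB : RR θ [0, 1] (pw [0, 1] (m + 2)) := hm.sub (fun _ => [0, 1])
  have hC : RR θ [1, 0] (pw [1, 0] (m + 2)) := hm.sub (fun _ => [1, 0])
  exact hnc (θ.trans hB (θ.trans (L2 m) hC.symm))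

theorem cph : CphStmt := by
  intro β hβ θ hle hnc u v h c
  have h1 := key β θ hβ hle hnc u v h c
  have h2 := key β θ hβ hle hnc v u h.symm c
  omega

end Pool.Agent.MWHP.H13
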